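import Pool.Agent.Q264.PD.Stm

/-!
# Project PD, job CIRC: circles
-/

set_option autoImplicit false

open Filter Metric Set Complex MeasureTheory
open scoped ENNReal

namespace Pool.Agent.Q185.PD

open Pool.Agent.Q264.PD

theorem osc {ψ ψ' q : ℝ → ℝ} (hψ : ∀ θ, HasDerivAt ψ (ψ' θ) θ) (hc : Continuous ψ') (hq : Continuous q)
    (hle : ∀ θ, |ψ' θ| ≤ q θ) {a b x y : ℝ} (hax : a ≤ x) (hxy : x ≤ y) (hyb : y ≤ b) :
    |ψ y - ψ x| ≤ ∫ t in a..b, q t := by
  have h1 : ∫ t in x..y, ψ' t = ψ y - ψ x :=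
    intervalIntegral.integral_eq_sub_of_hasDerivAt (fun t _ => hψ t) (hc.intervalIntegrable _ _)
  rw [← h1]
  calc |∫ t in x..y, ψ' t| ≤ ∫ t in x..y, |ψ' t| := by
        have := intervalIntegral.norm_integral_le_integral_norm (f := ψ') (μ := volume) hxy
        simpa using this
    _ ≤ ∫ t in x..y, q t := by
        apply intervalIntegral.integral_mono_on hxy (hc.abs.intervalIntegrable _ _)
          (hq.intervalIntegrable _ _)
        intro t _
        exact hle t
    _ ≤ ∫ t in a..b, q t := by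
        apply intervalIntegral.integral_mono_interval hax hxy hyb
        · exact Filter.Eventually.of_forall fun t => (abs_nonneg _).trans (hle t)
        · exact hq.intervalIntegrable _ _

/-- the point of the circle -/
noncomputable def pt (p : ℂ) (r θ : ℝ) : ℂ := p + r * (Real.cos θ + Real.sin θ * I)

theorem fderiv_eq (Φ : ℂ → ℝ) (z h : ℂ) : fderiv ℝ Φ z h = h.re * du Φ z + h.im * dv Φ z := by
  have h1 : h = h.re • (1 : ℂ) + h.im • I := by
    apply Complex.ext <;> simp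
  conv_lhs => rw [h1]
  rw [map_add, map_smul, map_smul]
  rfl

theorem circle_bound {Φ : ℂ → ℝ} (hΦ : ContDiff ℝ 1 Φ) (p : ℂ) {r : ℝ} (hr : 0 < r)
    (h1 : ∃ w, ‖w - p‖ = r ∧ Φ w = 1) (h0 : ∃ w, ‖w - p‖ = r ∧ Φ w = 0) :
    1 / (2 * Real.pi * r) ≤ ∫ θ in (-Real.pi)..Real.pi,
      r * (du Φ (pt p r θ) ^ 2 + dv Φ (pt p r θ) ^ 2) := by
  have hpi := Real.pi_pos
  have hcu : Continuous (fun z => du Φ z) := by
    unfold du
    exact (hΦ.continuous_fderiv (by norm_num)).clm_apply continuous_const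
  have hcv : Continuous (fun z => dv Φ z) := by
    unfold dv
    exact (hΦ.continuous_fderiv (by norm_num)).clm_apply continuous_const
  have hpt : Continuous (pt p r) := by
    unfold pt
    fun_prop
  obtain ⟨h', hh'⟩ : ∃ h' : ℝ → ℂ, ∀ θ, h' θ = r * (-Real.sin θ + Real.cos θ * I) := ⟨_, fun _ => rfl⟩
  have hder : ∀ θ, HasDerivAt (pt p r) (h' θ) θ := by
    intro θ
    rw [hh']
    have h2 : HasDerivAt (fun θ : ℝ => ((Real.cos θ : ℝ) : ℂ)) ((-Real.sin θ : ℝ) : ℂ) θ :=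
      (Real.hasDerivAt_cos θ).ofReal_comp
    have h3 : HasDerivAt (fun θ : ℝ => ((Real.sin θ : ℝ) : ℂ)) ((Real.cos θ : ℝ) : ℂ) θ :=
      (Real.hasDerivAt_sin θ).ofReal_comp
    have h4 := ((h2.add (h3.mul_const I)).const_mul (r : ℂ)).const_add p
    have h5 : ((-Real.sin θ : ℝ) : ℂ) = -((Real.sin θ : ℝ) : ℂ) := by push_cast; rfl
    rw [h5] at h4
    exact h4
  have hψ : ∀ θ, HasDerivAt (fun θ => Φ (pt p r θ)) (fderiv ℝ Φ (pt p r θ) (h' θ)) θ := by
    intro θ
    exact ((hΦ.differentiable (by norm_num) (pt p r θ)).hasFDerivAt).comp_hasDerivAt θ (hder θ)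
  have hch : Continuous h' := by
    have : h' = fun θ => (r : ℂ) * (-Real.sin θ + Real.cos θ * I) := funext hh'
    rw [this]
    fun_prop
  have hcd : Continuous (fun θ => fderiv ℝ Φ (pt p r θ) (h' θ)) :=
    ((hΦ.continuous_fderiv (by norm_num)).comp hpt).clm_apply hch
  have hgc : Continuous (fun θ => du Φ (pt p r θ) ^ 2 + dv Φ (pt p r θ) ^ 2) :=
    ((hcu.comp hpt).pow 2).add ((hcv.comp hpt).pow 2)
  have hqc : Continuous (fun θ => Real.pi * r ^ 2 * (du Φ (pt p r θ) ^ 2 + dv Φ (pt p r θ) ^ 2) +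
      1 / (4 * Real.pi)) := (hgc.const_mul _).add continuous_const
  have hle : ∀ θ, |fderiv ℝ Φ (pt p r θ) (h' θ)| ≤
      Real.pi * r ^ 2 * (du Φ (pt p r θ) ^ 2 + dv Φ (pt p r θ) ^ 2) + 1 / (4 * Real.pi) := by
    intro θ
    rw [fderiv_eq]
    obtain ⟨x, hx⟩ : ∃ x, x = (h' θ).re * du Φ (pt p r θ) + (h' θ).im * dv Φ (pt p r θ) := ⟨_, rfl⟩
    obtain ⟨G, hG⟩ : ∃ G, G = du Φ (pt p r θ) ^ 2 + dv Φ (pt p r θ) ^ 2 := ⟨_, rfl⟩
    rw [← hx, ← hG]
    have hre : (h' θ).re = -(r * Real.sin θ) := by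
      rw [hh']
      simp [Complex.sin_ofReal_re, Complex.cos_ofReal_re]
    have him : (h' θ).im = r * Real.cos θ := by
      rw [hh']
      simp [Complex.sin_ofReal_re, Complex.cos_ofReal_re]
    have hx2 : x ^ 2 ≤ r ^ 2 * G := by
      rw [hx, hG, hre, him]
      have h3 := Real.sin_sq_add_cos_sq θ
      have h4 : r ^ 2 * (du Φ (pt p r θ) ^ 2 + dv Φ (pt p r θ) ^ 2) -
          (-(r * Real.sin θ) * du Φ (pt p r θ) + r * Real.cos θ * dv Φ (pt p r θ)) ^ 2 =
          (r * (Real.cos θ * du Φ (pt p r θ) + Real.sin θ * dv Φ (pt p r θ))) ^ 2 := by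
        linear_combination (-(r ^ 2 * (du Φ (pt p r θ) ^ 2 + dv Φ (pt p r θ) ^ 2))) * h3
      nlinarith [sq_nonneg (r * (Real.cos θ * du Φ (pt p r θ) + Real.sin θ * dv Φ (pt p r θ)))]
    have h6 : |x| ≤ Real.pi * x ^ 2 + 1 / (4 * Real.pi) := by
      have h7 : 0 ≤ (2 * Real.pi * |x| - 1) ^ 2 / (4 * Real.pi) := by positivity
      have h8 : (2 * Real.pi * |x| - 1) ^ 2 / (4 * Real.pi) =
          Real.pi * |x| ^ 2 - |x| + 1 / (4 * Real.pi) := by
        field_simp
        ring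
      rw [h8, sq_abs] at h7
      linarith
    have h9 : Real.pi * x ^ 2 ≤ Real.pi * (r ^ 2 * G) := mul_le_mul_of_nonneg_left hx2 hpi.le
    linarith
  -- the two points
  have harg : ∀ w : ℂ, ‖w - p‖ = r → pt p r (arg (w - p)) = w := by
    intro w hw
    have h2 := Complex.norm_mul_exp_arg_mul_I (w - p)
    rw [hw, Complex.exp_mul_I] at h2
    unfold pt
    rw [Complex.ofReal_cos, Complex.ofReal_sin, h2]
    ring
  obtain ⟨w₁, hw₁, hv₁⟩ := h1
  obtain ⟨w₀, hw₀, hv₀⟩ := h0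
  have hosc : 1 ≤ ∫ θ in (-Real.pi)..Real.pi,
      (Real.pi * r ^ 2 * (du Φ (pt p r θ) ^ 2 + dv Φ (pt p r θ) ^ 2) + 1 / (4 * Real.pi)) := by
    have e1 := harg w₁ hw₁
    have e0 := harg w₀ hw₀
    rcases le_total (arg (w₁ - p)) (arg (w₀ - p)) with h | h
    · have h2 := osc hψ hcd hqc hle (Complex.neg_pi_lt_arg (w₁ - p)).le h (Complex.arg_le_pi (w₀ - p))
      rw [e1, e0, hv₁, hv₀] at h2
      norm_num at h2
      simpa using h2
    · have h2 := osc hψ hcd hqc hle (Complex.neg_pi_lt_arg (w₀ - p)).le h (Complex.arg_le_pi (w₁ - p))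
      rw [e1, e0, hv₁, hv₀] at h2
      norm_num at h2
      simpa using h2
  rw [intervalIntegral.integral_add ((hgc.const_mul _).intervalIntegrable _ _)
    (continuous_const.intervalIntegrable _ _), intervalIntegral.integral_const,
    intervalIntegral.integral_const_mul] at hosc
  rw [intervalIntegral.integral_const_mul]
  obtain ⟨J, hJ⟩ : ∃ J, J = ∫ θ in (-Real.pi)..Real.pi,
    (du Φ (pt p r θ) ^ 2 + dv Φ (pt p r θ) ^ 2) := ⟨_, rfl⟩
  rw [← hJ] at hosc ⊢
  have h3 : (Real.pi - -Real.pi) • (1 / (4 * Real.pi)) = 1 / 2 := by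
    rw [smul_eq_mul]
    field_simp
    ring
  rw [h3] at hosc
  have h4 : 1 ≤ (r * J) * (2 * Real.pi * r) := by nlinarith
  rw [div_le_iff₀ (by positivity)]
  exact h4

/-- **job CIRC** -/
theorem t_CIRC : S_CIRC := by
  intro Φ hΦ hc p r₁ r₂ hr1 hr12 hmeet
  have hpi := Real.pi_pos
  have hcu : Continuous (fun z => du Φ z) := by
    unfold du
    exact (hΦ.continuous_fderiv (by norm_num)).clm_apply continuous_const
  have hcv : Continuous (fun z => dv Φ z) := by
    unfold dv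
    exact (hΦ.continuous_fderiv (by norm_num)).clm_apply continuous_const
  obtain ⟨g, hg⟩ : ∃ g : ℂ → ℝ, ∀ z, g z = du Φ z ^ 2 + dv Φ z ^ 2 := ⟨_, fun _ => rfl⟩
  have hgc : Continuous g := by
    have : g = fun z => du Φ z ^ 2 + dv Φ z ^ 2 := funext hg
    rw [this]
    exact (hcu.pow 2).add (hcv.pow 2)
  have hg0 : ∀ z, 0 ≤ g z := fun z => by rw [hg]; positivity
  have hgs : HasCompactSupport g := by
    apply hc.fderiv (𝕜 := ℝ) |>.mono'
    intro z hz
    rw [Function.mem_support] at hz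
    apply subset_closure
    rw [Function.mem_support]
    intro h
    apply hz
    rw [hg, du, dv, h]
    simp
  have hgi : Integrable g := hgc.integrable_of_hasCompactSupport hgs
  have hDir : ENNReal.ofReal (Dir Φ) = ∫⁻ z, ENNReal.ofReal (g z) := by
    have h1 : Dir Φ = ∫ z, g z := by
      unfold Dir
      congr 1
      funext z
      rw [hg]
    rw [h1]
    exact ofReal_integral_eq_lintegral_ofReal hgi (Filter.Eventually.of_forall hg0)
  have hpt : Continuous (fun x : ℝ × ℝ => pt p x.1 x.2) := by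
    unfold pt
    fun_prop
  have h1 : ∫⁻ z, ENNReal.ofReal (g z) = ∫⁻ x : ℝ × ℝ in polarCoord.target,
      ENNReal.ofReal x.1 • ENNReal.ofReal (g (pt p x.1 x.2)) := by
    rw [← lintegral_add_left_eq_self (fun z => ENNReal.ofReal (g z)) p,
      ← Complex.lintegral_comp_polarCoord_symm]
    congr 1
    funext x
    rw [Complex.polarCoord_symm_apply]
    rfl
  have h2 : ∫⁻ x : ℝ × ℝ in Ioo r₁ r₂ ×ˢ Ioo (-Real.pi) Real.pi,
      ENNReal.ofReal x.1 • ENNReal.ofReal (g (pt p x.1 x.2)) ≤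
      ∫⁻ x : ℝ × ℝ in polarCoord.target, ENNReal.ofReal x.1 • ENNReal.ofReal (g (pt p x.1 x.2)) := by
    apply lintegral_mono_set
    rintro ⟨x, θ⟩ ⟨hx, hθ⟩
    exact ⟨hr1.trans hx.1, hθ⟩
  have h3 : ∫⁻ x : ℝ × ℝ in Ioo r₁ r₂ ×ˢ Ioo (-Real.pi) Real.pi,
      ENNReal.ofReal x.1 • ENNReal.ofReal (g (pt p x.1 x.2)) =
      ∫⁻ r in Ioo r₁ r₂, ∫⁻ θ in Ioo (-Real.pi) Real.pi,
        ENNReal.ofReal r • ENNReal.ofReal (g (pt p r θ)) := by
    rw [Measure.volume_eq_prod, ← Measure.prod_restrict, lintegral_prod]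
    apply Measurable.aemeasurable
    exact (measurable_fst.ennreal_ofReal).mul ((hgc.comp hpt).measurable.ennreal_ofReal)
  have h4 : ∀ r ∈ Ioo r₁ r₂, ENNReal.ofReal (1 / (2 * Real.pi * r)) ≤
      ∫⁻ θ in Ioo (-Real.pi) Real.pi, ENNReal.ofReal r • ENNReal.ofReal (g (pt p r θ)) := by
    intro r hr
    have hr0 : 0 < r := hr1.trans hr.1
    have h5 := circle_bound hΦ p hr0 (hmeet r hr).1 (hmeet r hr).2
    have hcont : Continuous (fun θ => r * g (pt p r θ)) :=
      continuous_const.mul (hgc.comp (hpt.comp (by fun_prop : Continuous fun θ : ℝ => (r, θ))))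
    have h6 : ∫⁻ θ in Ioo (-Real.pi) Real.pi, ENNReal.ofReal r • ENNReal.ofReal (g (pt p r θ)) =
        ENNReal.ofReal (∫ θ in Ioo (-Real.pi) Real.pi, r * g (pt p r θ)) := by
      rw [ofReal_integral_eq_lintegral_ofReal]
      · congr 1
        funext θ
        rw [smul_eq_mul, ENNReal.ofReal_mul hr0.le]
      · exact (hcont.integrableOn_Icc).mono_set Ioo_subset_Icc_self
      · exact Filter.Eventually.of_forall fun θ => mul_nonneg hr0.le (hg0 _)
    rw [h6]
    apply ENNReal.ofReal_le_ofReal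
    rw [← integral_Ioc_eq_integral_Ioo, ← intervalIntegral.integral_of_le (by linarith)]
    simp only [hg]
    exact h5
  have h7 : ∫⁻ r in Ioo r₁ r₂, ENNReal.ofReal (1 / (2 * Real.pi * r)) ≤ ENNReal.ofReal (Dir Φ) := by
    rw [hDir, h1]
    refine le_trans ?_ h2
    rw [h3]
    exact setLIntegral_mono' measurableSet_Ioo h4
  have h8 : ∫⁻ r in Ioo r₁ r₂, ENNReal.ofReal (1 / (2 * Real.pi * r)) =
      ENNReal.ofReal (1 / (2 * Real.pi) * Real.log (r₂ / r₁)) := by
    have hcon : ContinuousOn (fun r : ℝ => 1 / (2 * Real.pi * r)) (Icc r₁ r₂) := by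
      apply ContinuousOn.div continuousOn_const (by fun_prop)
      intro r hr
      have : 0 < r := hr1.trans_le hr.1
      positivity
    rw [← ofReal_integral_eq_lintegral_ofReal]
    · congr 1
      rw [← integral_Ioc_eq_integral_Ioo, ← intervalIntegral.integral_of_le hr12]
      have h9 : ∀ r : ℝ, 1 / (2 * Real.pi * r) = 1 / (2 * Real.pi) * (1 / r) := fun r => by
        rw [one_div_mul_one_div]
      simp only [h9]
      rw [intervalIntegral.integral_const_mul, integral_one_div_of_pos hr1 (hr1.trans_le hr12)]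
    · exact (hcon.integrableOn_Icc).mono_set Ioo_subset_Icc_self
    · refine (ae_restrict_iff' measurableSet_Ioo).2 (Filter.Eventually.of_forall fun r hr => ?_)
      have : 0 < r := hr1.trans hr.1
      show (0 : ℝ) ≤ 1 / (2 * Real.pi * r)
      positivity
  rw [h8] at h7
  have hD : 0 ≤ Dir Φ := integral_nonneg fun z => by positivity
  have h10 := (ENNReal.ofReal_le_ofReal_iff hD).1 h7
  have h11 : Real.log (r₂ / r₁) = 2 * Real.pi * (1 / (2 * Real.pi) * Real.log (r₂ / r₁)) := by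
    field_simp
  rw [h11]
  exact mul_le_mul_of_nonneg_left h10 (by positivity)

end Pool.Agent.Q185.PD
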