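import Pool.Agent.Q264.PD.Stm

/-!
# Project PD, job LIMA: the limit and its bijectivity
-/

set_option autoImplicit false

open Filter Metric Set Complex

namespace Pool.Agent.Q185.PD

open Pool.Agent.Q264.PD

section tower
variable {ρ : ℕ → ℝ} {Q : ℕ → ℂ → ℝ} {f : ℕ → ℂ → ℂ}

theorem rho_pos (T : Tower ρ Q f) (n : ℕ) : 0 < ρ n := by
  have := T.lo n
  linarith

theorem rho_mono (T : Tower ρ Q f) {n m : ℕ} (h : n ≤ m) : ρ n ≤ ρ m := T.mono.monotone h

theorem near0 (T : Tower ρ Q f) {n m m' : ℕ} (h : n < m) (h' : n < m') {z : ℂ} (hz : ‖z‖ ≤ ρ n) :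
    ‖f m' z - f m z‖ ≤ (1 / 2) ^ (n + 2) * ‖f m z‖ := by
  have h1 := T.near n m m' h h' z 0 hz (by rw [norm_zero]; exact (rho_pos T n).le)
  rwa [T.zero, T.zero, sub_zero, sub_zero] at h1

theorem half_le (n : ℕ) : (1 / 2 : ℝ) ^ (n + 2) ≤ 1 / 4 := by
  rw [pow_add]
  have : (1 / 2 : ℝ) ^ n ≤ 1 := pow_le_one₀ (by norm_num) (by norm_num)
  norm_num
  linarith

theorem bdd (T : Tower ρ Q f) (j : ℕ) : ∃ B : ℝ, 0 ≤ B ∧ ∀ z : ℂ, ‖z‖ ≤ ρ j → ∀ m, j < m → ‖f m z‖ ≤ B := by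
  have hc : Continuous (f (j + 1)) := (T.map (j + 1)).smooth.continuous
  obtain ⟨B, hB⟩ := (isCompact_closedBall (0 : ℂ) (ρ j)).exists_bound_of_continuousOn hc.continuousOn
  have hB0 : 0 ≤ B := (norm_nonneg _).trans (hB 0 (by simp [(rho_pos T j).le]))
  refine ⟨2 * B, by linarith, fun z hz m hm => ?_⟩
  have h1 := near0 T (Nat.lt_succ_self j) hm hz
  have h2 := hB z (by simpa using hz)
  have h3 := half_le j
  have h4 : ‖f m z‖ ≤ ‖f m z - f (j + 1) z‖ + ‖f (j + 1) z‖ := by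
    have := norm_add_le (f m z - f (j + 1) z) (f (j + 1) z)
    rwa [sub_add_cancel] at this
  have h5 : (1 / 2 : ℝ) ^ (j + 2) * ‖f (j + 1) z‖ ≤ 1 / 4 * B :=
    mul_le_mul h3 h2 (norm_nonneg _) (by norm_num)
  have h6 : ‖f m z - f (j + 1) z‖ ≤ 1 / 4 * B := h1.trans h5
  linarith

theorem ucauchy (T : Tower ρ Q f) (j : ℕ) : UniformCauchySeqOn f atTop (closedBall 0 (ρ j)) := by
  obtain ⟨B, hB0, hB⟩ := bdd T j
  rw [Metric.uniformCauchySeqOn_iff]
  intro ε hε
  obtain ⟨n, hn⟩ := exists_pow_lt_of_lt_one (show 0 < ε / (B + 1) by positivity) (show (1 / 2 : ℝ) < 1 by norm_num)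
  refine ⟨max n j + 1, fun m hm m' hm' z hz => ?_⟩
  have hz' : ‖z‖ ≤ ρ j := by simpa using hz
  have hzn : ‖z‖ ≤ ρ (max n j) := hz'.trans (rho_mono T (le_max_right _ _))
  have h1 := near0 T (n := max n j) (m := m') (m' := m) (by omega) (by omega) hzn
  have h2 := hB z hz' m' (by omega)
  rw [dist_eq_norm]
  refine h1.trans_lt ?_
  have h3 : (1 / 2 : ℝ) ^ (max n j + 2) ≤ (1 / 2) ^ n :=
    pow_le_pow_of_le_one (by norm_num) (by norm_num) (by omega)
  calc (1 / 2 : ℝ) ^ (max n j + 2) * ‖f m' z‖ ≤ (1 / 2) ^ n * B :=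
        mul_le_mul h3 h2 (norm_nonneg _) (by positivity)
    _ ≤ (1 / 2) ^ n * (B + 1) := by
        apply mul_le_mul_of_nonneg_left (by linarith) (by positivity)
    _ < ε / (B + 1) * (B + 1) := by
        apply mul_lt_mul_of_pos_right hn (by linarith)
    _ = ε := div_mul_cancel₀ _ (by linarith)

theorem ex_rho (T : Tower ρ Q f) {r : ℝ} (hr : r < 1) : ∃ n, r < ρ n :=
  ((T.lim.eventually_const_lt hr)).exists

end tower

/-- **job LIMA** -/
theorem t_LIMA : S_LIMA := by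
  intro ρ Q f T
  classical
  obtain ⟨g, hg⟩ : ∃ g : ℂ → ℂ, ∀ j : ℕ, ∀ z : ℂ, ‖z‖ ≤ ρ j → Tendsto (fun m => f m z) atTop (nhds (g z)) := by
    refine ⟨fun z => limUnder atTop (fun m => f m z), fun j z hz => ?_⟩
    have h1 : CauchySeq (fun m => f m z) := by
      rw [Metric.cauchySeq_iff]
      intro ε hε
      obtain ⟨N, hN⟩ := (Metric.uniformCauchySeqOn_iff.1 (ucauchy T j)) ε hε
      exact ⟨N, fun m hm m' hm' => hN m hm m' hm' z (by simpa using hz)⟩
    exact h1.tendsto_limUnder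
  have hunif : ∀ n, TendstoUniformlyOn f g atTop (closedBall 0 (ρ n)) := fun n =>
    (ucauchy T n).tendstoUniformlyOn_of_tendsto fun z hz => hg n z (by simpa using hz)
  have hkey : ∀ n m, n < m → ∀ z z' : ℂ, ‖z‖ ≤ ρ n → ‖z'‖ ≤ ρ n →
      ‖(g z - g z') - (f m z - f m z')‖ ≤ (1 / 2) ^ (n + 2) * ‖f m z - f m z'‖ := by
    intro n m hnm z z' hz hz'
    have h1 : Tendsto (fun m' => ‖(f m' z - f m' z') - (f m z - f m z')‖) atTop
        (nhds ‖(g z - g z') - (f m z - f m z')‖) :=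
      (((hg n z hz).sub (hg n z' hz')).sub_const _).norm
    refine le_of_tendsto h1 ?_
    filter_upwards [eventually_gt_atTop n] with m' hm'
    exact T.near n m m' hnm hm' z z' hz hz'
  have hg0 : g 0 = 0 := by
    have h1 := hg 0 0 (by rw [norm_zero]; exact (rho_pos T 0).le)
    have h2 : (fun m => f m 0) = fun _ => (0 : ℂ) := funext fun m => T.zero m
    rw [h2] at h1
    exact tendsto_nhds_unique h1 tendsto_const_nhds
  refine ⟨g, hunif, ⟨fun z _ => mem_univ _, ?_, ?_⟩, hkey⟩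
  · -- injectivity
    intro z hz z' hz' h
    have hz1 : ‖z‖ < 1 := by simpa using hz
    have hz1' : ‖z'‖ < 1 := by simpa using hz'
    obtain ⟨n, hn⟩ := ex_rho T (max_lt hz1 hz1')
    have h1 := hkey n (n + 1) (Nat.lt_succ_self n) z z' ((le_max_left _ _).trans hn.le)
      ((le_max_right _ _).trans hn.le)
    rw [h, sub_self, zero_sub, norm_neg] at h1
    have h2 := half_le n
    have h3 : (1 / 2 : ℝ) ^ (n + 2) * ‖f (n + 1) z - f (n + 1) z'‖ ≤
        1 / 4 * ‖f (n + 1) z - f (n + 1) z'‖ := mul_le_mul_of_nonneg_right h2 (norm_nonneg _)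
    have h4 : ‖f (n + 1) z - f (n + 1) z'‖ = 0 := by
      have := norm_nonneg (f (n + 1) z - f (n + 1) z')
      linarith
    exact (T.map (n + 1)).inj (sub_eq_zero.1 (norm_eq_zero.1 h4))
  · -- surjectivity
    intro w _
    obtain ⟨a, ha⟩ : ∃ a, a = ‖f 1 (1 / 4)‖ := ⟨_, rfl⟩
    have ha0 : 0 < a := by
      rw [ha, norm_pos_iff]
      intro h
      rw [← T.zero 1] at h
      have := (T.map 1).inj h
      norm_num at this
    have hz0 : ∀ n, ‖(1 / 4 : ℂ)‖ ≤ ρ n := by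
      intro n
      have := T.lo n
      norm_num
      linarith
    have hlow : ∀ m, 1 ≤ m → a / 2 ≤ ‖f m (1 / 4)‖ := by
      intro m hm
      have h1 := near0 T (n := 0) (m := 1) (m' := m) one_pos (by omega) (hz0 0)
      rw [← ha] at h1
      have h2 : a ≤ ‖f m (1 / 4)‖ + ‖f m (1 / 4) - f 1 (1 / 4)‖ := by
        rw [ha]
        have := norm_sub_le (f m (1 / 4)) (f m (1 / 4) - f 1 (1 / 4))
        rwa [sub_sub_cancel] at this
      norm_num at h1
      linarith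
    obtain ⟨n, hn⟩ : ∃ n : ℕ, 4 * ‖w‖ / a < 2 ^ n := pow_unbounded_of_one_lt _ (by norm_num)
    obtain ⟨N, hN1, hN⟩ : ∃ N : ℕ, 1 ≤ N ∧ 4 * ‖w‖ / a < 2 ^ N :=
      ⟨n + 1, by omega, hn.trans (pow_lt_pow_right₀ (by norm_num) (Nat.lt_succ_self n))⟩
    obtain ⟨b, hb⟩ : ∃ b : ℝ, b = 2 ^ N * a := ⟨_, rfl⟩
    have hb0 : 0 < b := by rw [hb]; positivity
    have hwb : ‖w‖ ≤ b / 4 := by
      rw [div_lt_iff₀ ha0] at hN
      rw [hb]
      linarith
    have hfar : ∀ z₀ : ℂ, ρ N ≤ ‖z₀‖ → b ≤ ‖f (N + 1) z₀‖ := by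
      intro z₀ hz₀
      obtain ⟨k, rfl⟩ : ∃ k, N = k + 1 := ⟨N - 1, by omega⟩
      have h1 := T.far k (k + 1 + 1) (by omega) (1 / 4) z₀ (hz0 k) hz₀
      have h2 := hlow (k + 1 + 1) (by omega)
      have h3 : a / 2 ≤ (1 / 2) ^ (k + 2) * ‖f (k + 1 + 1) z₀‖ := h2.trans h1
      have h4 : (2 : ℝ) ^ (k + 2) * (1 / 2) ^ (k + 2) = 1 := by
        rw [← mul_pow]; norm_num
      calc b = 2 ^ (k + 2) * (a / 2) := by rw [hb]; ring
        _ ≤ 2 ^ (k + 2) * ((1 / 2) ^ (k + 2) * ‖f (k + 1 + 1) z₀‖) :=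
            mul_le_mul_of_nonneg_left h3 (by positivity)
        _ = ‖f (k + 1 + 1) z₀‖ := by rw [← mul_assoc, h4, one_mul]
    obtain ⟨F', hF'⟩ := (T.map (N + 1)).surj.hasRightInverse
    have hin : ∀ y : ℂ, ‖y‖ < b → ‖F' y‖ < ρ N := by
      intro y hy
      by_contra hcon
      push Not at hcon
      have := hfar _ hcon
      rw [hF' y] at this
      linarith
    have hF0 : F' 0 = 0 := by
      apply (T.map (N + 1)).inj
      rw [hF' 0, T.zero]
    obtain ⟨Φ, hΦ⟩ : ∃ Φ : ℂ → ℂ, ∀ y, Φ y = w - (g (F' y) - y) := ⟨fun y => w - (g (F' y) - y), fun _ => rfl⟩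
    have hlip : ∀ y ∈ closedBall (0 : ℂ) (b / 2), ∀ y' ∈ closedBall (0 : ℂ) (b / 2),
        ‖Φ y - Φ y'‖ ≤ 1 / 4 * ‖y - y'‖ := by
      intro y hy y' hy'
      have hyb : ‖y‖ < b := by
        have : ‖y‖ ≤ b / 2 := by simpa using hy
        linarith
      have hyb' : ‖y'‖ < b := by
        have : ‖y'‖ ≤ b / 2 := by simpa using hy'
        linarith
      have h1 := hkey N (N + 1) (Nat.lt_succ_self N) (F' y) (F' y') (hin y hyb).le (hin y' hyb').le
      rw [hF' y, hF' y'] at h1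
      have h2 : Φ y - Φ y' = -((g (F' y) - g (F' y')) - (y - y')) := by
        rw [hΦ, hΦ]; ring
      rw [h2, norm_neg]
      exact h1.trans (mul_le_mul_of_nonneg_right (half_le N) (norm_nonneg _))
    have hΦ0 : Φ 0 = w := by rw [hΦ, hF0, hg0]; ring
    have h0B : (0 : ℂ) ∈ closedBall (0 : ℂ) (b / 2) := by
      rw [mem_closedBall, dist_self]
      linarith
    have hmaps : MapsTo Φ (closedBall (0 : ℂ) (b / 2)) (closedBall (0 : ℂ) (b / 2)) := by
      intro y hy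
      have h1 := hlip y hy 0 h0B
      rw [hΦ0, sub_zero] at h1
      have h2 : ‖y‖ ≤ b / 2 := by simpa using hy
      have h3 : ‖Φ y‖ ≤ ‖Φ y - w‖ + ‖w‖ := by
        have := norm_add_le (Φ y - w) w
        rwa [sub_add_cancel] at this
      rw [mem_closedBall, dist_zero_right]
      linarith
    have hcontr : ContractingWith (1 / 4 : NNReal) (hmaps.restrict Φ _ _) := by
      refine ⟨by rw [div_lt_one] <;> norm_num, ?_⟩
      apply LipschitzWith.of_dist_le_mul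
      intro x y
      have h1 := hlip x.1 x.2 y.1 y.2
      rw [Subtype.dist_eq, Subtype.dist_eq, dist_eq_norm, dist_eq_norm]
      simpa using h1
    obtain ⟨y, hyB, hfix, -⟩ := hcontr.exists_fixedPoint' (isClosed_closedBall.isComplete) hmaps h0B
      (edist_ne_top _ _)
    have hyb : ‖y‖ < b := by
      have : ‖y‖ ≤ b / 2 := by simpa using hyB
      linarith
    have h1 : w - (g (F' y) - y) = y := by
      rw [← hΦ]
      exact hfix
    refine ⟨F' y, ?_, ?_⟩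
    · rw [mem_ball, dist_zero_right]
      exact (hin y hyb).trans (T.hi N)
    · linear_combination -h1

end Pool.Agent.Q185.PD
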