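import Pool.Agent.Q264.PD.Stm

/-!
# Project PD, job QQ: the weight adapted to a function
-/

set_option autoImplicit false

open Filter Metric Set Complex MeasureTheory
open scoped ContDiff

namespace Pool.Agent.Q185.PD

open Pool.Agent.Q264.PD

theorem sqrt_sq_add_le {x t : ℝ} (ht : 0 ≤ t) : √(x ^ 2 + t ^ 2) ≤ |x| + t := by
  rw [Real.sqrt_le_iff]
  refine ⟨add_nonneg (abs_nonneg _) ht, ?_⟩
  have h1 := sq_abs x
  have h2 := abs_nonneg x
  nlinarith [mul_nonneg h2 ht]

theorem abs_le_sqrt' {x t : ℝ} : |x| ≤ √(x ^ 2 + t ^ 2) :=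
  Real.abs_le_sqrt (by nlinarith [sq_nonneg t])

/-- **job QQ** -/
theorem t_QQ : S_QQ := by
  intro φ hφ hc ε hε
  have hdu : ContDiff ℝ ∞ (fun z => du φ z) := by
    unfold du
    exact (hφ.fderiv_right (m := ∞) (by simp)).clm_apply contDiff_const
  have hdv : ContDiff ℝ ∞ (fun z => dv φ z) := by
    unfold dv
    exact (hφ.fderiv_right (m := ∞) (by simp)).clm_apply contDiff_const
  have hcu := hdu.continuous
  have hcv := hdv.continuous
  have hsupp : ∀ g : ℂ → ℝ, (∀ z, fderiv ℝ φ z = 0 → g z = 0) → HasCompactSupport g := by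
    intro g hg
    apply (hc.fderiv (𝕜 := ℝ)).mono'
    intro z hz
    rw [Function.mem_support] at hz
    apply subset_closure
    rw [Function.mem_support]
    intro h
    exact hz (hg z h)
  have hu0 : ∀ z, fderiv ℝ φ z = 0 → du φ z = 0 := fun z h => by rw [du, h]; rfl
  have hv0 : ∀ z, fderiv ℝ φ z = 0 → dv φ z = 0 := fun z h => by rw [dv, h]; rfl
  have hi1 : Integrable (fun z => |du φ z| + |dv φ z|) := by
    apply Continuous.integrable_of_hasCompactSupport (hcu.abs.add hcv.abs)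
    apply hsupp
    intro z h
    show |du φ z| + |dv φ z| = 0
    rw [hu0 z h, hv0 z h]
    simp
  have hi2 : Integrable (fun z => |du φ z * dv φ z|) := by
    apply Continuous.integrable_of_hasCompactSupport (hcu.mul hcv).abs
    apply hsupp
    intro z h
    show |du φ z * dv φ z| = 0
    rw [hu0 z h]
    simp
  obtain ⟨S, hS⟩ : ∃ S, S = ∫ z, (|du φ z| + |dv φ z|) := ⟨_, rfl⟩
  have hS0 : 0 ≤ S := by
    rw [hS]
    exact integral_nonneg fun z => by positivity
  obtain ⟨t, ht, htS⟩ : ∃ t : ℝ, 0 < t ∧ t * S ≤ ε := by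
    refine ⟨ε / (S + 1), by positivity, ?_⟩
    calc ε / (S + 1) * S ≤ ε / (S + 1) * (S + 1) := by
          apply mul_le_mul_of_nonneg_left (by linarith) (by positivity)
      _ = ε := div_mul_cancel₀ _ (by linarith)
  have ht2 : 0 < t ^ 2 := by positivity
  have hpa : ∀ z, 0 < du φ z ^ 2 + t ^ 2 := fun z => by positivity
  have hpb : ∀ z, 0 < dv φ z ^ 2 + t ^ 2 := fun z => by positivity
  refine ⟨fun z => √((du φ z ^ 2 + t ^ 2) / (dv φ z ^ 2 + t ^ 2)), ?_, ?_, ?_, ?_⟩
  · apply ContDiff.sqrt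
    · exact ((hdu.pow 2).add contDiff_const).div ((hdv.pow 2).add contDiff_const) fun z => (hpb z).ne'
    · intro z
      exact (div_pos (hpa z) (hpb z)).ne'
  · intro z
    exact Real.sqrt_pos.2 (div_pos (hpa z) (hpb z))
  · intro z h
    show √((du φ z ^ 2 + t ^ 2) / (dv φ z ^ 2 + t ^ 2)) = 1
    rw [hu0 z h, hv0 z h]
    have : ((0 : ℝ) ^ 2 + t ^ 2) / (0 ^ 2 + t ^ 2) = 1 := by
      rw [div_self]
      positivity
    rw [this, Real.sqrt_one]
  · have hle : ∀ z, du φ z ^ 2 / √((du φ z ^ 2 + t ^ 2) / (dv φ z ^ 2 + t ^ 2)) +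
        √((du φ z ^ 2 + t ^ 2) / (dv φ z ^ 2 + t ^ 2)) * dv φ z ^ 2 ≤
        2 * |du φ z * dv φ z| + t * (|du φ z| + |dv φ z|) := by
      intro z
      obtain ⟨x, hx⟩ : ∃ x, x = du φ z := ⟨_, rfl⟩
      obtain ⟨y, hy⟩ : ∃ y, y = dv φ z := ⟨_, rfl⟩
      have hA := hpa z
      have hB := hpb z
      rw [← hx] at hA
      rw [← hy] at hB
      rw [← hx, ← hy, Real.sqrt_div hA.le]
      obtain ⟨a, ha⟩ : ∃ a, a = √(x ^ 2 + t ^ 2) := ⟨_, rfl⟩
      obtain ⟨b, hb⟩ : ∃ b, b = √(y ^ 2 + t ^ 2) := ⟨_, rfl⟩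
      have ha0 : 0 < a := by rw [ha]; exact Real.sqrt_pos.2 hA
      have hb0 : 0 < b := by rw [hb]; exact Real.sqrt_pos.2 hB
      have hxa : |x| ≤ a := by rw [ha]; exact abs_le_sqrt'
      have hyb : |y| ≤ b := by rw [hb]; exact abs_le_sqrt'
      have hax : a ≤ |x| + t := by rw [ha]; exact sqrt_sq_add_le ht.le
      have hby : b ≤ |y| + t := by rw [hb]; exact sqrt_sq_add_le ht.le
      rw [← ha, ← hb]
      have e1 : x ^ 2 / (a / b) ≤ |x| * (|y| + t) := by
        rw [div_div_eq_mul_div, div_le_iff₀ ha0, ← sq_abs]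
        have h1 : |x| * b ≤ (|y| + t) * a := mul_comm (|x|) b ▸ mul_le_mul hby hxa (abs_nonneg _) (by positivity)
        calc |x| ^ 2 * b = |x| * (|x| * b) := by ring
          _ ≤ |x| * ((|y| + t) * a) := mul_le_mul_of_nonneg_left h1 (abs_nonneg _)
          _ = |x| * (|y| + t) * a := by ring
      have e2 : a / b * y ^ 2 ≤ (|x| + t) * |y| := by
        rw [div_mul_eq_mul_div, div_le_iff₀ hb0, ← sq_abs]
        have h1 : a * |y| ≤ (|x| + t) * b := mul_le_mul hax hyb (abs_nonneg _) (by positivity)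
        calc a * |y| ^ 2 = (a * |y|) * |y| := by ring
          _ ≤ ((|x| + t) * b) * |y| := mul_le_mul_of_nonneg_right h1 (abs_nonneg _)
          _ = (|x| + t) * |y| * b := by ring
      rw [abs_mul]
      linarith
    have h1 : Energy (fun z => √((du φ z ^ 2 + t ^ 2) / (dv φ z ^ 2 + t ^ 2))) φ ≤
        ∫ z, (2 * |du φ z * dv φ z| + t * (|du φ z| + |dv φ z|)) := by
      apply integral_mono_of_nonneg
      · exact Filter.Eventually.of_forall fun z => by positivity
      · exact (hi2.const_mul 2).add (hi1.const_mul t)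
      · exact Filter.Eventually.of_forall hle
    rw [integral_add (hi2.const_mul 2) (hi1.const_mul t), integral_const_mul, integral_const_mul,
      ← hS] at h1
    linarith

end Pool.Agent.Q185.PD
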