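import Pool.Agent.Q264.PD.Stm

/-!
# Project PD, job RING: the modulus of a ring with a bounded component of given diameter
-/

set_option autoImplicit false

open Filter Metric Set Complex MeasureTheory

namespace Pool.Agent.Q185.PD

open Pool.Agent.Q264.PD

theorem Dir_nonneg (Φ : ℂ → ℝ) : 0 ≤ Dir Φ := integral_nonneg fun z => by positivity

/-- a connected set meets the circles between two of its points -/
theorem meet {E : Set ℂ} (hE : IsPreconnected E) {a b : ℂ} (ha : a ∈ E) (hb : b ∈ E) (p : ℂ) {r : ℝ}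
    (h1 : ‖a - p‖ ≤ r) (h2 : r ≤ ‖b - p‖) : ∃ w ∈ E, ‖w - p‖ = r :=
  hE.intermediate_value ha hb (f := fun w => ‖w - p‖) (by fun_prop) ⟨h1, h2⟩

theorem meet_far {F : Set ℂ} (hF : IsPreconnected F) {w₀ : ℂ} (h0 : w₀ ∈ F)
    (hub : ∀ R : ℝ, ∃ w ∈ F, R < ‖w‖) (p : ℂ) {r : ℝ} (h1 : ‖w₀ - p‖ ≤ r) : ∃ w ∈ F, ‖w - p‖ = r := by
  obtain ⟨w, hw, hR⟩ := hub (r + ‖p‖)
  refine meet hF h0 hw p h1 ?_
  have := norm_sub_norm_le w p
  linarith

/-- **job RING** -/
theorem t_RING (hCIRC : S_CIRC) : S_RING := by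
  intro Φ hΦ hΦc E F hE hF w₀ w₁ h0 h1 hw₀ hub hE1 hF0
  have hD := Dir_nonneg Φ
  have hpi := Real.pi_gt_three
  have hpi2 := Real.pi_lt_d2
  have hne : w₀ ≠ 0 := by
    intro h
    have h2 := hF0 w₀ hw₀
    rw [h, hE1 0 h0] at h2
    exact one_ne_zero h2
  obtain ⟨L, hL⟩ : ∃ L, L = ‖w₀‖ := ⟨_, rfl⟩
  have hL0 : 0 < L := by rw [hL]; exact norm_pos_iff.2 hne
  -- reduction to a point at distance at most `L`
  obtain ⟨v, hv, hvn⟩ : ∃ v ∈ E, ‖v - 0‖ = min ‖w₁‖ L := by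
    apply meet hE h0 h1 0
    · rw [sub_zero, norm_zero]
      exact le_min (norm_nonneg _) hL0.le
    · rw [sub_zero]
      exact min_le_left _ _
  rw [sub_zero] at hvn
  have hmin : min (‖w₁‖ / ‖w₀‖) 1 = ‖v‖ / L := by
    rw [hvn, ← hL, ← min_div_div_right hL0.le, div_self hL0.ne']
  rw [hmin]
  have hvL : ‖v‖ ≤ L := by rw [hvn]; exact min_le_right _ _
  obtain ⟨l, hl⟩ : ∃ l, l = ‖v‖ := ⟨_, rfl⟩
  rw [← hl] at hvL ⊢
  have hl0 : 0 ≤ l := by rw [hl]; exact norm_nonneg _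
  have hEm : ∀ p : ℂ, ∀ r : ℝ, (∃ w ∈ E, ‖w - p‖ = r) → ∃ w, ‖w - p‖ = r ∧ Φ w = 1 := by
    rintro p r ⟨w, hw, h⟩
    exact ⟨w, h, hE1 w hw⟩
  have hFm : ∀ p : ℂ, ∀ r : ℝ, (∃ w ∈ F, ‖w - p‖ = r) → ∃ w, ‖w - p‖ = r ∧ Φ w = 0 := by
    rintro p r ⟨w, hw, h⟩
    exact ⟨w, h, hF0 w hw⟩
  rcases lt_or_ge ‖v - w₀‖ (L / 2) with hcase | hcase
  · -- first case
    have h2 := hCIRC Φ hΦ hΦc w₀ (L / 2) L (by linarith) (by linarith) (by
      intro r hr
      refine ⟨hEm _ _ (meet hE hv h0 w₀ (by linarith [hr.1]) ?_), hFm _ _ (meet_far hF hw₀ hub w₀ ?_)⟩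
      · rw [zero_sub, norm_neg, ← hL]
        exact hr.2.le
      · rw [sub_self, norm_zero]
        linarith [hr.1])
    have h3 : L / (L / 2) = 2 := by field_simp
    rw [h3] at h2
    have h4 := Real.log_two_gt_d9
    have h5 : l / L ≤ 1 := by rw [div_le_one hL0]; exact hvL
    nlinarith
  · -- second case
    rcases hl0.eq_or_lt with h | hlpos
    · rw [← h, zero_div]
      positivity
    obtain ⟨e, he⟩ : ∃ e : ℂ, e = v / (l : ℂ) := ⟨_, rfl⟩
    have hle : (l : ℂ) * e = v := by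
      rw [he]
      rw [mul_div_assoc', mul_div_cancel_left₀]; exact_mod_cast hlpos.ne'
    have hen : ‖e‖ = 1 := by
      rw [he, norm_div, ← hl, norm_real, Real.norm_of_nonneg hl0, div_self hlpos.ne']
    obtain ⟨D₀, hD₀⟩ : ∃ D₀ : ℝ, D₀ = ‖w₀‖ ^ 2 - ‖w₀ - v‖ ^ 2 := ⟨_, rfl⟩
    have hdiff : ∀ s : ℝ, ‖w₀ + s * e‖ ^ 2 - ‖w₀ + s * e - v‖ ^ 2 = D₀ + 2 * s * l := by
      intro s
      have hn : ∀ z : ℂ, ‖z‖ ^ 2 = z.re ^ 2 + z.im ^ 2 := fun z => by
        rw [← normSq_eq_norm_sq, normSq_apply]; ring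
      have he2 : e.re ^ 2 + e.im ^ 2 = 1 := by rw [← hn, hen, one_pow]
      rw [hD₀, hn, hn, hn, hn, ← hle]
      simp only [add_re, add_im, sub_re, sub_im, mul_re, mul_im, ofReal_re, ofReal_im]
      linear_combination (2 * s * l) * he2
    obtain ⟨s, hs, hsD⟩ : ∃ s : ℝ, |s| = L / 4 ∧ L * l / 2 ≤ |D₀ + 2 * s * l| := by
      rcases le_total 0 D₀ with h | h
      · refine ⟨L / 4, abs_of_pos (by linarith), ?_⟩
        have h2 : 0 ≤ 2 * (L / 4) * l := by positivity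
        rw [abs_of_nonneg (by linarith)]
        linarith
      · refine ⟨-(L / 4), by rw [abs_neg, abs_of_pos (by linarith)], ?_⟩
        have h2 : 0 ≤ 2 * (L / 4) * l := by positivity
        rw [abs_of_nonpos (by linarith)]
        linarith
    obtain ⟨p, hp⟩ : ∃ p : ℂ, p = w₀ + s * e := ⟨_, rfl⟩
    have hdp := hdiff s
    rw [← hp] at hdp
    have hse : ‖(s : ℂ) * e‖ = L / 4 := by
      rw [norm_mul, hen, mul_one, norm_real, Real.norm_eq_abs, hs]
    have hpw : ‖w₀ - p‖ = L / 4 := by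
      rw [hp, ← norm_neg]
      have : -(w₀ - (w₀ + s * e)) = s * e := by ring
      rw [this, hse]
    have hp1 : ‖p‖ ≤ 5 * L / 4 := by
      rw [hp]
      have := norm_add_le w₀ (s * e)
      rw [hse, ← hL] at this
      linarith
    have hp2 : 3 * L / 4 ≤ ‖p‖ := by
      have h2 : ‖w₀‖ ≤ ‖w₀ - p‖ + ‖p‖ := by
        have := norm_add_le (w₀ - p) p
        rwa [sub_add_cancel] at this
      rw [hpw, ← hL] at h2
      linarith
    have hq1 : ‖p - v‖ ≤ 9 * L / 4 := by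
      have := norm_sub_le p v
      rw [← hl] at this
      linarith
    have hq2 : L / 4 ≤ ‖p - v‖ := by
      have h2 : ‖v - w₀‖ ≤ ‖p - v‖ + ‖w₀ - p‖ := by
        have := norm_add_le (p - v) (w₀ - p)
        have h3 : p - v + (w₀ - p) = -(v - w₀) := by ring
        rwa [h3, norm_neg] at this
      rw [hpw] at h2
      linarith
    obtain ⟨x, hx⟩ : ∃ x, x = ‖p‖ := ⟨_, rfl⟩
    obtain ⟨y, hy⟩ : ∃ y, y = ‖p - v‖ := ⟨_, rfl⟩
    rw [← hx] at hp1 hp2 hdp
    rw [← hy] at hq1 hq2 hdp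
    have hgap : l / 7 ≤ |x - y| := by
      have h2 : |D₀ + 2 * s * l| = |x - y| * (x + y) := by
        have h3 : x ^ 2 - y ^ 2 = (x - y) * (x + y) := by ring
        rw [← hdp, h3, abs_mul, abs_of_nonneg (show 0 ≤ x + y by linarith)]
      rw [h2] at hsD
      have h3 : |x - y| * (x + y) ≤ |x - y| * (7 * L / 2) :=
        mul_le_mul_of_nonneg_left (by linarith) (abs_nonneg _)
      have h4 : L * (l / 7) ≤ L * |x - y| := by linarith
      exact le_of_mul_le_mul_left h4 hL0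
    -- the two radii
    have main : ∀ r₁ r₂ : ℝ, L / 4 ≤ r₁ → r₂ ≤ 9 * L / 4 → l / 7 ≤ r₂ - r₁ →
        (∀ r ∈ Ioo r₁ r₂, ∃ w ∈ E, ‖w - p‖ = r) → l / L ≤ 100 * Dir Φ := by
      intro r₁ r₂ hr1 hr2 hgp hmeet
      have h2 := hCIRC Φ hΦ hΦc p r₁ r₂ (by linarith) (by linarith) (by
        intro r hr
        exact ⟨hEm _ _ (hmeet r hr), hFm _ _ (meet_far hF hw₀ hub p (by rw [hpw]; linarith [hr.1]))⟩)
      have hr10 : 0 < r₁ := by linarith
      have hr20 : 0 < r₂ := by linarith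
      have h3 := Real.one_sub_inv_le_log_of_pos (show 0 < r₂ / r₁ by positivity)
      rw [inv_div] at h3
      have h4 : (r₂ - r₁) / r₂ ≤ 2 * Real.pi * Dir Φ := by
        have : (r₂ - r₁) / r₂ = 1 - r₁ / r₂ := by field_simp
        rw [this]
        exact h3.trans h2
      have h5 : (l / 7) / (9 * L / 4) ≤ (r₂ - r₁) / r₂ :=
        div_le_div₀ (by linarith) hgp hr20 hr2
      have h6 : (l / 7) / (9 * L / 4) = 4 / 63 * (l / L) := by
        field_simp
        ring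
      rw [h6] at h5
      have h7 : l / L ≤ 63 / 4 * (2 * Real.pi * Dir Φ) := by linarith
      have h8 : Real.pi * Dir Φ ≤ 3.15 * Dir Φ := mul_le_mul_of_nonneg_right hpi2.le hD
      linarith
    rcases le_total x y with hxy | hxy
    · refine main x y (by linarith) hq1 (by rwa [abs_sub_comm, abs_of_nonneg (by linarith)] at hgap) ?_
      intro r hr
      apply meet hE h0 hv p
      · rw [zero_sub, norm_neg, ← hx]
        exact hr.1.le
      · rw [norm_sub_rev, ← hy]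
        exact hr.2.le
    · refine main y x hq2 (by linarith) (by rwa [abs_of_nonneg (by linarith)] at hgap) ?_
      intro r hr
      apply meet hE hv h0 p
      · rw [norm_sub_rev, ← hy]
        exact hr.1.le
      · rw [zero_sub, norm_neg, ← hx]
        exact hr.2.le

end Pool.Agent.Q185.PD
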